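import Pool.Agent.Helper236.Cycle

/-! # Hyperplanes that meet every line: factorisation of the characteristic polynomial -/

namespace Pool.Agent.Helper335.ModHyp

open Set Pool.Agent.Helper236

variable {α : Type*} {M : Matroid α}

theorem coe_rk (M : Matroid α) [M.Finite] (X : Set α) : (rk M X : ℕ∞) = M.eRk X := by
  rw [rk, ENat.natCast_toNat]
  rw [Matroid.eRk_ne_top_iff]
  exact Matroid.isRkFinite_set M X

theorem rk_mono (M : Matroid α) [M.Finite] {X Y : Set α} (h : X ⊆ Y) : rk M X ≤ rk M Y := by
  have := M.eRk_mono h
  rw [← coe_rk, ← coe_rk] at this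
  exact_mod_cast this

theorem rk_insert (M : Matroid α) [M.Finite] {X : Set α} {e : α} (he : e ∈ M.E)
    (heX : e ∉ M.closure X) : rk M (insert e X) = rk M X + 1 := by
  have := M.eRk_insert_eq_add_one ⟨he, heX⟩
  rw [← coe_rk, ← coe_rk] at this
  exact_mod_cast this

theorem rk_closure (M : Matroid α) [M.Finite] (X : Set α) : rk M (M.closure X) = rk M X := by
  rw [rk, M.eRk_closure_eq, rk]

theorem rk_insert_mem (M : Matroid α) [M.Finite] {X : Set α} {e : α}
    (heX : e ∈ M.closure X) : rk M (insert e X) = rk M X := by
  rw [← rk_closure M (insert e X), Matroid.closure_insert_eq_of_mem_closure heX, rk_closure]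

theorem rk_restrict (M : Matroid α) {R X : Set α} (h : X ⊆ R) :
    rk (M.restrict R) X = rk M X := by
  rw [rk, rk, M.restrict_eRk_eq h]

/-- Every line spanned by two elements outside `H` meets `H`. -/
def MeetsLines (M : Matroid α) (H : Set α) : Prop :=
  ∀ e ∈ M.E, ∀ f ∈ M.E, e ∉ H → f ∉ H → e ≠ f → ∃ h ∈ H, h ∈ M.closure {e, f}

open Polynomial in
/-- Stanley's factorisation for a hyperplane that meets every line. -/
theorem charPoly_factor (M : Matroid α) [M.Finite] {H : Set α} (hH : M.IsFlat H)
    (hr : rk M H + 1 = rk M M.E) (hl : MeetsLines M H) :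
    charPoly M = charPoly (M.restrict H) * (X - C ((M.E \ H).ncard : ℤ)) := by
  classical
  have hHE : H ⊆ M.E := hH.subset_ground
  have hHf : H.Finite := M.ground_finite.subset hHE
  have hSf : (M.E \ H).Finite := M.ground_finite.subset sdiff_subset
  have hfinR : (M.restrict H).Finite := ⟨hHf⟩
  set HF : Finset α := hHf.toFinset with hHF
  set SF : Finset α := hSf.toFinset with hSF
  have hHFc : (HF : Set α) = H := by simp [hHF]
  have hSFc : (SF : Set α) = M.E \ H := by simp [hSF]
  have hE : M.ground_finite.toFinset = SF ∪ HF := by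
    ext x
    simp only [Set.Finite.mem_toFinset, Finset.mem_union, hSF, hHF, Set.mem_sdiff]
    constructor
    · intro hx
      by_cases h : x ∈ H
      · exact Or.inr h
      · exact Or.inl ⟨hx, h⟩
    · rintro (h | h)
      · exact h.1
      · exact hHE h
  have hdisj : Disjoint SF HF := by
    rw [Finset.disjoint_left]
    intro x hx hx'
    simp only [hSF, Set.Finite.mem_toFinset] at hx
    simp only [hHF, Set.Finite.mem_toFinset] at hx'
    exact hx.2 hx'
  have hR : charPoly (M.restrict H) = ∑ B ∈ HF.powerset,
      (-1) ^ B.card * (Polynomial.X : ℤ[X]) ^ (rk M H - rk M (B : Set α)) := by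
    rw [charPoly_eq]
    have h1 : (M.restrict H).ground_finite.toFinset = HF := by
      ext x
      simp [hHF]
    rw [h1]
    refine Finset.sum_congr rfl fun B hB => ?_
    have hB' : (B : Set α) ⊆ H := by
      rw [← hHFc]
      exact_mod_cast Finset.mem_powerset.1 hB
    rw [Matroid.restrict_ground_eq, rk_restrict M Subset.rfl, rk_restrict M hB']
  set g : Finset α → ℤ[X] := fun A =>
    (-1) ^ A.card * Polynomial.X ^ (rk M M.E - rk M (A : Set α)) with hg
  have hsplit : charPoly M = ∑ T ∈ SF.powerset, ∑ B ∈ HF.powerset, g (T ∪ B) := by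
    rw [charPoly_eq, hE, ← Finset.sum_product']
    symm
    refine Finset.sum_bij' (fun p _ => p.1 ∪ p.2) (fun A _ => (A ∩ SF, A ∩ HF)) ?_ ?_ ?_ ?_ ?_
    · intro p hp
      rw [Finset.mem_product, Finset.mem_powerset, Finset.mem_powerset] at hp
      rw [Finset.mem_powerset]
      exact Finset.union_subset_union hp.1 hp.2
    · intro A hA
      rw [Finset.mem_product, Finset.mem_powerset, Finset.mem_powerset]
      exact ⟨Finset.inter_subset_right, Finset.inter_subset_right⟩
    · intro p hp
      rw [Finset.mem_product, Finset.mem_powerset, Finset.mem_powerset] at hp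
      have h1 : p.1 ∩ HF = ∅ := Finset.disjoint_iff_inter_eq_empty.1 (hdisj.mono_left hp.1)
      have h2 : p.2 ∩ SF = ∅ := Finset.disjoint_iff_inter_eq_empty.1 (hdisj.symm.mono_left hp.2)
      ext x
      · simp only [Finset.union_inter_distrib_right, h2, Finset.union_empty,
          Finset.inter_eq_left.2 hp.1]
      · simp only [Finset.union_inter_distrib_right, h1, Finset.empty_union,
          Finset.inter_eq_left.2 hp.2]
    · intro A hA
      rw [Finset.mem_powerset] at hA
      simp only
      rw [← Finset.inter_union_distrib_left, Finset.inter_eq_left.2 hA]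
    · intro p hp
      rfl
  -- the inner sums
  have h0 : ∑ B ∈ HF.powerset, g (∅ ∪ B) = charPoly (M.restrict H) * Polynomial.X := by
    rw [hR, Finset.sum_mul]
    refine Finset.sum_congr rfl fun B hB => ?_
    have hB' : (B : Set α) ⊆ H := by
      rw [← hHFc]
      exact_mod_cast Finset.mem_powerset.1 hB
    have hle := rk_mono M hB'
    have h3 : rk M M.E - rk M (B : Set α) = rk M H - rk M (B : Set α) + 1 := by omega
    rw [hg]
    simp only [Finset.empty_union]
    rw [h3, mul_assoc, ← pow_succ]
  have h1 : ∀ e ∈ SF, ∑ B ∈ HF.powerset, g ({e} ∪ B) = - charPoly (M.restrict H) := by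
    intro e he
    have he' : e ∈ M.E ∧ e ∉ H := by
      simpa [hSF] using he
    rw [hR, ← Finset.sum_neg_distrib]
    refine Finset.sum_congr rfl fun B hB => ?_
    have hB' : (B : Set α) ⊆ H := by
      rw [← hHFc]
      exact_mod_cast Finset.mem_powerset.1 hB
    have hle := rk_mono M hB'
    have heB : e ∉ B := fun h => he'.2 (hB' h)
    have hecl : e ∉ M.closure (B : Set α) := by
      intro h
      have := M.closure_subset_closure hB' h
      rw [hH.closure] at this
      exact he'.2 this
    have hcoe : (({e} ∪ B : Finset α) : Set α) = insert e (B : Set α) := by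
      push_cast
      rfl
    rw [hg]
    simp only
    rw [hcoe, rk_insert M he'.1 hecl, Finset.singleton_union, Finset.card_insert_of_notMem heB,
      pow_succ]
    have h3 : rk M M.E - (rk M (B : Set α) + 1) = rk M H - rk M (B : Set α) := by omega
    rw [h3]
    ring
  have h2 : ∀ T ∈ SF.powerset, 2 ≤ T.card → ∑ B ∈ HF.powerset, g (T ∪ B) = 0 := by
    intro T hT hT2
    obtain ⟨e, heT, f, hfT, hef⟩ := Finset.one_lt_card.1 hT2
    rw [Finset.mem_powerset] at hT
    have he : e ∈ M.E ∧ e ∉ H := by simpa [hSF] using hT heT
    have hf : f ∈ M.E ∧ f ∉ H := by simpa [hSF] using hT hfT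
    obtain ⟨h, hhH, hhcl⟩ := hl e he.1 f hf.1 he.2 hf.2 hef
    have hhF : h ∈ HF := by simpa [hHF] using hhH
    rw [← Finset.insert_erase hhF, Finset.sum_powerset_insert (Finset.notMem_erase h HF),
      ← Finset.sum_add_distrib]
    refine Finset.sum_eq_zero fun B hB => ?_
    have hhB : h ∉ B := fun hh => by
      have := Finset.mem_powerset.1 hB hh
      exact Finset.notMem_erase h HF this
    have hhT : h ∉ T := fun hh => by
      have : h ∈ M.E ∧ h ∉ H := by simpa [hSF] using hT hh
      exact this.2 hhH
    have hcl : h ∈ M.closure ((T ∪ B : Finset α) : Set α) := by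
      refine M.closure_subset_closure ?_ hhcl
      intro x hx
      rw [Finset.mem_coe, Finset.mem_union]
      rcases hx with rfl | rfl
      · exact Or.inl heT
      · exact Or.inl hfT
    have hcoe : ((T ∪ insert h B : Finset α) : Set α) =
        insert h ((T ∪ B : Finset α) : Set α) := by
      rw [Finset.union_insert]
      push_cast
      rfl
    rw [hg]
    simp only
    rw [hcoe, rk_insert_mem M hcl, Finset.union_insert, Finset.card_insert_of_notMem
      (by rw [Finset.mem_union]; tauto), pow_succ]
    ring
  rw [hsplit, Finset.sum_powerset]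
  have h3 : ∀ j ∈ Finset.range (SF.card + 1),
      ∑ T ∈ Finset.powersetCard j SF, ∑ B ∈ HF.powerset, g (T ∪ B) =
        if j = 0 then charPoly (M.restrict H) * Polynomial.X
        else if j = 1 then - (charPoly (M.restrict H) * C (SF.card : ℤ)) else 0 := by
    intro j _
    rcases Nat.lt_or_ge j 2 with hj | hj
    · interval_cases j
      · rw [Finset.powersetCard_zero, Finset.sum_singleton, if_pos rfl, h0]
      · rw [Finset.powersetCard_one, Finset.sum_map, if_neg one_ne_zero, if_pos rfl]
        simp only [Function.Embedding.coeFn_mk]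
        rw [Finset.sum_congr rfl h1, Finset.sum_const, nsmul_eq_mul, map_natCast]
        ring
    · rw [if_neg (by omega), if_neg (by omega)]
      refine Finset.sum_eq_zero fun T hT => ?_
      rw [Finset.mem_powersetCard] at hT
      exact h2 T (Finset.mem_powerset.2 hT.1) (by omega)
  rw [Finset.sum_congr rfl h3]
  have hcard : ((M.E \ H).ncard : ℤ) = (SF.card : ℤ) := by
    rw [← hSFc, Set.ncard_coe_finset]
  rw [hcard]
  rw [Finset.sum_ite, Finset.sum_ite]
  simp only [Finset.sum_const_zero, add_zero, Finset.filter_filter]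
  have hf0 : Finset.filter (fun j => j = 0) (Finset.range (SF.card + 1)) = {0} := by
    ext j
    simp only [Finset.mem_filter, Finset.mem_range, Finset.mem_singleton]
    omega
  rw [hf0, Finset.sum_singleton]
  by_cases hS0 : SF.card = 0
  · have hf1 : Finset.filter (fun j => ¬ j = 0 ∧ j = 1) (Finset.range (SF.card + 1)) = ∅ := by
      ext j
      simp only [Finset.mem_filter, Finset.mem_range, Finset.notMem_empty, iff_false]
      rintro ⟨h5, _, h6⟩
      omega
    rw [hf1, Finset.sum_empty, hS0]
    simp
  · have hf1 : Finset.filter (fun j => ¬ j = 0 ∧ j = 1) (Finset.range (SF.card + 1)) = {1} := by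
      ext j
      simp only [Finset.mem_filter, Finset.mem_range, Finset.mem_singleton]
      constructor
      · rintro ⟨_, _, h⟩
        exact h
      · rintro rfl
        exact ⟨by omega, by omega, rfl⟩
    rw [hf1, Finset.sum_singleton]
    ring

end Pool.Agent.Helper335.ModHyp
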