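import Pool.Agent.Helper335.ModHyp.Main

/-! # Modular hyperplanes and modular chains: the final theorems -/

namespace Pool.Agent.Helper335.ModHyp

open Set Pool.Agent.Helper236

universe u

variable {α : Type u} {M : Matroid α}

/-! ### Modular hyperplanes -/

theorem meetsLines_hyperplane (M : Matroid α) [M.Finite] (hs : IsSimple M) {H : Set α}
    (hH : IsModularHyperplane M H) : MeetsLines M H := by
  have h := meetsLines_of_modular M hs hH.1 M.ground_isFlat hH.1.1.subset_ground hH.2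
  rwa [Matroid.restrict_ground_eq_self] at h

open Polynomial in
theorem modular_factor (M : Matroid α) [M.Finite] (hs : IsSimple M) {H : Set α}
    (hH : IsModularHyperplane M H) :
    charPoly M = charPoly (M.restrict H) * (X - C ((M.E \ H).ncard : ℤ)) :=
  charPoly_factor M hH.1.1 hH.2 (meetsLines_hyperplane M hs hH)

theorem modular_restriction (M : Matroid α) [M.Finite] (hs : IsSimple M) {H : Set α}
    (hH : IsModularHyperplane M H) {m : ℕ} (hm : 1 ≤ m) (hcard : m ≤ (M.E \ H).ncard) :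
    ∃ Y ⊆ M.E, (Y \ H).ncard = m ∧ NormalAt m (M.restrict Y) ∧
      (charPoly (M.restrict Y)).eval (m : ℤ) = 0 ∧ Y.ncard ≤ (m + 1).choose 2 :=
  exists_restriction_root M hs hH.1.1 (meetsLines_hyperplane M hs hH) hm hcard

theorem ssubset_of_hyperplane (M : Matroid α) {H : Set α} (hH : IsModularHyperplane M H) :
    H ⊂ M.E := by
  refine ⟨hH.1.1.subset_ground, fun h => ?_⟩
  have h1 : H = M.E := Subset.antisymm hH.1.1.subset_ground h
  have h2 := hH.2
  rw [h1] at h2
  omega

theorem minimal_of_modular (M : Matroid α) [M.Finite] (hs : IsSimple M) {H : Set α}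
    (hH : IsModularHyperplane M H) {m : ℕ} (hm : 1 ≤ m)
    (hp : (charPoly M).eval (m : ℤ) ≤ 0)
    (hmin : ∀ Y, Y ⊂ M.E → 0 < (charPoly (M.restrict Y)).eval (m : ℤ)) :
    NormalAt m M ∧ (charPoly M).eval (m : ℤ) = 0 ∧ (M.E \ H).ncard = m ∧
      M.E.ncard ≤ (m + 1).choose 2 := by
  have h1 := hmin H (ssubset_of_hyperplane M hH)
  have h2 := modular_factor M hs hH
  have h3 : (charPoly M).eval (m : ℤ) =
      (charPoly (M.restrict H)).eval (m : ℤ) * ((m : ℤ) - ((M.E \ H).ncard : ℤ)) := by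
    rw [h2]
    simp
  have h4 : m ≤ (M.E \ H).ncard := by
    by_contra hlt
    have h5 : (0 : ℤ) < (m : ℤ) - ((M.E \ H).ncard : ℤ) := by omega
    have h6 := mul_pos h1 h5
    rw [← h3] at h6
    omega
  obtain ⟨Y, hYE, hY1, hY2, hY3, hY4⟩ := modular_restriction M hs hH hm h4
  have hYeq : Y = M.E := by
    by_contra hne
    have := hmin Y (lt_of_le_of_ne hYE hne)
    omega
  subst hYeq
  rw [Matroid.restrict_ground_eq_self] at hY2 hY3
  exact ⟨hY2, hY3, hY1, hY4⟩

/-! ### Representable matroids -/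

theorem exists_rep {F : Type} [Field F] (h : Representable F M) :
    ∃ (n : ℕ) (v : α → (Fin n → F)), Rep F M v := by
  obtain ⟨n, v, hv⟩ := h
  exact ⟨n, v, hv⟩

theorem rep_restrict {F : Type} [Field F] {n : ℕ} {v : α → (Fin n → F)} (h : Rep F M v)
    {Y : Set α} (hY : Y ⊆ M.E) : Rep F (M.restrict Y) v := by
  intro I hI
  rw [Matroid.restrict_ground_eq] at hI
  rw [Matroid.restrict_indep_iff, h I (hI.trans hY), and_iff_left hI]

theorem block_iff {F : Type} [Field F] [Finite F] [M.Finite] {n : ℕ} {v : α → (Fin n → F)}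
    (h : Rep F M v) (k : ℕ) :
    (k : ℕ∞) < critExp M (Nat.card F) ↔
      (charPoly M).eval (((Nat.card F) ^ k : ℕ) : ℤ) = 0 := by
  have h1 := eval_pos_iff h k
  have h2 := crapo_rota h k
  have hq : (0 : ℤ) < (Nat.card F : ℤ) ^ (k * (Module.finrank F (Fin n → F) - rk M M.E)) := by
    have : 0 < Nat.card F := Nat.card_pos
    positivity
  have h3 : 0 ≤ (charPoly M).eval ((Nat.card F : ℤ) ^ k) := by
    by_contra hneg
    push Not at hneg
    have := mul_neg_of_pos_of_neg hq hneg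
    rw [← h2] at this
    omega
  rw [lt_critExp_iff h k]
  push_cast
  constructor
  · intro hall
    by_contra hne
    have hpos : 0 < (charPoly M).eval ((Nat.card F : ℤ) ^ k) := lt_of_le_of_ne h3 (Ne.symm hne)
    obtain ⟨f, hf⟩ := h1.1 hpos
    obtain ⟨e, he, hfe⟩ := hall f
    exact hf e he hfe
  · intro h0 f
    by_contra hcon
    push Not at hcon
    have := h1.2 ⟨f, hcon⟩
    omega

/-- A representable matroid with a modular hyperplane. -/
theorem modular_block {F : Type} [Field F] [Finite F] (M : Matroid α) [M.Finite]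
    (hs : IsSimple M) (hrep : Representable F M) {k : ℕ}
    (hk : (k : ℕ∞) < critExp M (Nat.card F)) {H : Set α} (hH : IsModularHyperplane M H) :
    (k : ℕ∞) < critExp (M.restrict H) (Nat.card F) ∨
      ((M.E \ H).ncard = (Nat.card F) ^ k ∧ ∃ Y ⊆ M.E, M.E \ H ⊆ Y ∧
        Y.ncard ≤ ((Nat.card F) ^ k + 1).choose 2 ∧ IsNormal (Nat.card F) k (M.restrict Y) ∧
        (k : ℕ∞) < critExp (M.restrict Y) (Nat.card F)) := by
  obtain ⟨n, v, hv⟩ := exists_rep hrep
  by_cases hkH : (k : ℕ∞) < critExp (M.restrict H) (Nat.card F)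
  · exact Or.inl hkH
  right
  have hHE := hH.1.1.subset_ground
  have hfinH : (M.restrict H).Finite := ⟨M.ground_finite.subset hHE⟩
  rw [block_iff (rep_restrict hv hHE)] at hkH
  rw [block_iff hv, modular_factor M hs hH] at hk
  have h1 : (M.E \ H).ncard = (Nat.card F) ^ k := by
    rw [Polynomial.eval_mul] at hk
    rcases mul_eq_zero.1 hk with h2 | h2
    · exact absurd h2 hkH
    · simp only [Polynomial.eval_sub, Polynomial.eval_X, Polynomial.eval_C] at h2
      have h3 : (((Nat.card F) ^ k : ℕ) : ℤ) = ((M.E \ H).ncard : ℤ) := by linarith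
      exact_mod_cast h3.symm
  refine ⟨h1, ?_⟩
  have hm : 1 ≤ (Nat.card F) ^ k := Nat.one_le_pow _ _ Nat.card_pos
  obtain ⟨Y, hYE, hY1, hY2, hY3, hY4⟩ := modular_restriction M hs hH hm h1.ge
  refine ⟨Y, hYE, ?_, hY4, hY2, ?_⟩
  · have h2 : Y \ H = M.E \ H :=
      Set.eq_of_subset_of_ncard_le (sdiff_subset_sdiff_left hYE) (by rw [h1, hY1])
        (M.ground_finite.subset sdiff_subset)
    rw [← h2]
    exact sdiff_subset
  · have hfinY : (M.restrict Y).Finite := ⟨M.ground_finite.subset hYE⟩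
    rw [block_iff (rep_restrict hv hYE)]
    exact hY3

/-- Restriction-minimal blocks over a finite field in terms of the characteristic polynomial. -/
theorem minimal_eval {F : Type} [Field F] [Finite F] (M : Matroid α) [M.Finite] {n : ℕ}
    {v : α → (Fin n → F)} (hv : Rep F M v) {k : ℕ}
    (hmin : ∀ e ∈ M.E, ∃ f : (Fin n → F) →ₗ[F] (Fin k → F), ∀ x ∈ M.E, x ≠ e → f (v x) ≠ 0)
    (Y : Set α) (hY : Y ⊂ M.E) :
    0 < (charPoly (M.restrict Y)).eval (((Nat.card F) ^ k : ℕ) : ℤ) := by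
  have hfinY : (M.restrict Y).Finite := ⟨M.ground_finite.subset hY.1⟩
  push_cast
  rw [eval_pos_iff (rep_restrict hv hY.1)]
  obtain ⟨e, heE, heY⟩ := Set.exists_of_ssubset hY
  obtain ⟨f, hf⟩ := hmin e heE
  refine ⟨f, fun x hx => hf x (hY.1 hx) ?_⟩
  rintro rfl
  exact heY hx

/-! ### Chains of modular flats -/

/-- `G 0 ⊆ G 1 ⊆ ⋯ ⊆ G r` is a maximal chain of modular flats of `M`. -/
def IsModularChain (M : Matroid α) (G : ℕ → Set α) : Prop :=
  (∀ i ≤ rk M M.E, IsModularFlat M (G i) ∧ rk M (G i) = i) ∧ ∀ i < rk M M.E, G i ⊆ G (i + 1)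

theorem chain_zero (M : Matroid α) [M.Finite] (hs : IsSimple M) {G : ℕ → Set α}
    (hG : IsModularChain M G) : G 0 = ∅ := by
  obtain ⟨h1, h2⟩ := hG.1 0 (Nat.zero_le _)
  by_contra hne
  obtain ⟨x, hx⟩ := Set.nonempty_iff_ne_empty.2 hne
  have hxE := h1.1.subset_ground hx
  have h3 : rk M {x} ≤ rk M (G 0) := rk_mono M (singleton_subset_iff.2 hx)
  have h4 : rk M {x} = 1 := by
    have h5 : M.Indep {x} := by simpa using hs x hxE x hxE
    rw [rk, h5.eRk_eq_encard, Set.encard_singleton]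
    rfl
  omega

theorem chain_top (M : Matroid α) [M.Finite] {G : ℕ → Set α}
    (hG : IsModularChain M G) : G (rk M M.E) = M.E := by
  obtain ⟨h1, h2⟩ := hG.1 (rk M M.E) le_rfl
  apply Subset.antisymm h1.1.subset_ground
  intro x hx
  by_contra hxG
  have h3 : x ∉ M.closure (G (rk M M.E)) := by rwa [h1.1.closure]
  have h4 := rk_insert M hx h3
  have h5 : rk M (insert x (G (rk M M.E))) ≤ rk M M.E :=
    rk_mono M (insert_subset hx h1.1.subset_ground)
  omega

theorem charPoly_empty (M : Matroid α) : charPoly (M.restrict ∅) = 1 := by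
  have hfin : (M.restrict ∅).Finite := ⟨Set.finite_empty⟩
  rw [charPoly_eq]
  have h1 : (M.restrict ∅).ground_finite.toFinset = ∅ := by
    ext x
    simp
  rw [h1, Finset.powerset_empty, Finset.sum_singleton]
  simp

theorem chain_step (M : Matroid α) [M.Finite] (hs : IsSimple M) {G : ℕ → Set α}
    (hG : IsModularChain M G) {i : ℕ} (hi : i < rk M M.E) :
    (M.restrict (G (i + 1))).IsFlat (G i) ∧
      rk (M.restrict (G (i + 1))) (G i) + 1 =
        rk (M.restrict (G (i + 1))) (M.restrict (G (i + 1))).E ∧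
      MeetsLines (M.restrict (G (i + 1))) (G i) := by
  obtain ⟨h1, h2⟩ := hG.1 i hi.le
  obtain ⟨h3, h4⟩ := hG.1 (i + 1) hi
  have h5 := hG.2 i hi
  refine ⟨isFlat_restrict h1.1 h3.1.subset_ground h5, ?_,
    meetsLines_of_modular M hs h1 h3.1 h5 (by omega)⟩
  rw [Matroid.restrict_ground_eq, rk_restrict M h5, rk_restrict M Subset.rfl, h2, h4]

open Polynomial in
theorem chain_factor (M : Matroid α) [M.Finite] (hs : IsSimple M) {G : ℕ → Set α}
    (hG : IsModularChain M G) (i : ℕ) (hi : i ≤ rk M M.E) :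
    charPoly (M.restrict (G i)) =
      ∏ j ∈ Finset.range i, (X - C ((G (j + 1) \ G j).ncard : ℤ)) := by
  induction i with
  | zero => rw [chain_zero M hs hG, charPoly_empty, Finset.range_zero, Finset.prod_empty]
  | succ i ih =>
    obtain ⟨h1, h2, h3⟩ := chain_step M hs hG (by omega : i < rk M M.E)
    have hsub := hG.2 i (by omega)
    have hfin : (M.restrict (G (i + 1))).Finite :=
      ⟨M.ground_finite.subset (hG.1 (i + 1) hi).1.1.subset_ground⟩
    have h4 := charPoly_factor (M.restrict (G (i + 1))) h1 h2 h3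
    rw [Matroid.restrict_restrict_eq _ hsub, Matroid.restrict_ground_eq, ih (by omega)] at h4
    rw [h4, Finset.prod_range_succ]

open Polynomial in
theorem supersolvable_factor (M : Matroid α) [M.Finite] (hs : IsSimple M) {G : ℕ → Set α}
    (hG : IsModularChain M G) :
    charPoly M = ∏ j ∈ Finset.range (rk M M.E), (X - C ((G (j + 1) \ G j).ncard : ℤ)) := by
  have h := chain_factor M hs hG (rk M M.E) le_rfl
  rwa [chain_top M hG, Matroid.restrict_ground_eq_self] at h

theorem chain_restriction (M : Matroid α) [M.Finite] (hs : IsSimple M) {G : ℕ → Set α}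
    (hG : IsModularChain M G) {i : ℕ} (hi : i < rk M M.E) {m : ℕ} (hm : 1 ≤ m)
    (hcard : m ≤ (G (i + 1) \ G i).ncard) :
    ∃ Y ⊆ M.E, NormalAt m (M.restrict Y) ∧
      (charPoly (M.restrict Y)).eval (m : ℤ) = 0 ∧ Y.ncard ≤ (m + 1).choose 2 := by
  obtain ⟨h1, h2, h3⟩ := chain_step M hs hG hi
  have hE := (hG.1 (i + 1) hi).1.1.subset_ground
  have hfin : (M.restrict (G (i + 1))).Finite := ⟨M.ground_finite.subset hE⟩
  obtain ⟨Y, hY1, -, hY3, hY4, hY5⟩ := exists_restriction_root (M.restrict (G (i + 1)))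
    (isSimple_restrict hs hE) h1 h3 hm hcard
  rw [Matroid.restrict_ground_eq] at hY1
  rw [Matroid.restrict_restrict_eq _ hY1] at hY3 hY4
  exact ⟨Y, hY1.trans hE, hY3, hY4, hY5⟩

theorem chain_restriction_of_real (M : Matroid α) [M.Finite] (hs : IsSimple M)
    {G : ℕ → Set α} (hG : IsModularChain M G) {m : ℕ} (hm : 1 ≤ m) {x : ℝ} (hx : (m : ℝ) ≤ x)
    (hp : Polynomial.aeval x (charPoly M) ≤ 0) :
    ∃ Y ⊆ M.E, NormalAt m (M.restrict Y) ∧
      (charPoly (M.restrict Y)).eval (m : ℤ) = 0 ∧ Y.ncard ≤ (m + 1).choose 2 := by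
  have h1 : Polynomial.aeval x (charPoly M) =
      ∏ j ∈ Finset.range (rk M M.E), (x - ((G (j + 1) \ G j).ncard : ℝ)) := by
    rw [supersolvable_factor M hs hG, map_prod]
    refine Finset.prod_congr rfl fun j _ => ?_
    simp
  rw [h1] at hp
  have h2 : ∃ j ∈ Finset.range (rk M M.E), x - ((G (j + 1) \ G j).ncard : ℝ) ≤ 0 := by
    by_contra hcon
    push Not at hcon
    exact absurd (Finset.prod_pos hcon) (not_lt.2 hp)
  obtain ⟨j, hj, hxj⟩ := h2
  refine chain_restriction M hs hG (Finset.mem_range.1 hj) hm ?_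
  have h3 : (m : ℝ) ≤ ((G (j + 1) \ G j).ncard : ℝ) := by linarith
  exact_mod_cast h3

theorem minimal_of_chain (M : Matroid α) [M.Finite] (hs : IsSimple M) {G : ℕ → Set α}
    (hG : IsModularChain M G) {m : ℕ} (hm : 1 ≤ m)
    (hp : (charPoly M).eval (m : ℤ) ≤ 0)
    (hmin : ∀ Y, Y ⊂ M.E → 0 < (charPoly (M.restrict Y)).eval (m : ℤ)) :
    NormalAt m M ∧ (charPoly M).eval (m : ℤ) = 0 ∧ M.E.ncard ≤ (m + 1).choose 2 := by
  have h1 : Polynomial.aeval (m : ℝ) (charPoly M) ≤ 0 := by
    have h2 : Polynomial.aeval (m : ℝ) (charPoly M) =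
        (((charPoly M).eval (m : ℤ) : ℤ) : ℝ) := by
      have h3 := Polynomial.aeval_algebraMap_apply ℝ (m : ℤ) (charPoly M)
      simpa using h3
    rw [h2]
    exact_mod_cast hp
  obtain ⟨Y, hYE, hY1, hY2, hY3⟩ := chain_restriction_of_real M hs hG hm le_rfl h1
  have hYeq : Y = M.E := by
    by_contra hne
    have := hmin Y (lt_of_le_of_ne hYE hne)
    omega
  subst hYeq
  rw [Matroid.restrict_ground_eq_self] at hY1 hY2
  exact ⟨hY1, hY2, hY3⟩

end Pool.Agent.Helper335.ModHyp
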