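import Pool.Agent.Helper335.ModHyp.Quot

/-! # Matroids with a hyperplane that meets every line contain quotients of complete graphs -/

namespace Pool.Agent.Helper335.ModHyp

open Set Pool.Agent.Helper236

variable {α : Type*} {M : Matroid α}

theorem eq_of_mem_closure_singleton (hs : IsSimple M) {x y : α} (hx : x ∈ M.E) (hy : y ∈ M.E)
    (h : x ∈ M.closure {y}) : x = y := by
  have hI : M.Indep {y} := by simpa using hs y hy y hy
  rcases hI.mem_closure_iff.1 h with h1 | h1
  · exact absurd (hs x hx y hy) h1.not_indep
  · exact h1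

theorem isSimple_restrict (hs : IsSimple M) {X : Set α} (hX : X ⊆ M.E) :
    IsSimple (M.restrict X) := by
  intro e he f hf
  rw [Matroid.restrict_ground_eq] at he hf
  rw [Matroid.restrict_indep_iff]
  refine ⟨hs e (hX he) f (hX hf), ?_⟩
  rintro x (rfl | rfl) <;> assumption

theorem exists_restriction (M : Matroid α) [M.Finite] (hs : IsSimple M) {H : Set α}
    (hH : M.IsFlat H) (hl : MeetsLines M H) {m : ℕ} (hm : 1 ≤ m)
    (hcard : m ≤ (M.E \ H).ncard) :
    ∃ X ⊆ M.E, (X \ H).ncard = m ∧ NormalAt m (M.restrict X) ∧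
      (M.restrict X).IsFlat (X ∩ H) ∧
      rk (M.restrict X) (X ∩ H) + 1 = rk (M.restrict X) (M.restrict X).E ∧
      MeetsLines (M.restrict X) (X ∩ H) ∧ X.ncard ≤ (m + 1).choose 2 := by
  classical
  obtain ⟨T, hTS, hTm⟩ := Set.exists_subset_card_eq hcard
  have hSf : (M.E \ H).Finite := M.ground_finite.subset sdiff_subset
  have hTf : T.Finite := hSf.subset hTS
  have : Finite T := hTf
  have hTc : Nat.card T = m := by rw [Nat.card_coe_set_eq, hTm]
  let eq : T ≃ Fin m := Finite.equivFinOfCardEq hTc
  let e : Fin m → α := fun i => (eq.symm i : α)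
  have heinj : Function.Injective e := fun i j hij => eq.symm.injective (Subtype.ext hij)
  have heE : ∀ i, e i ∈ M.E := fun i => (hTS (eq.symm i).2).1
  have heH : ∀ i, e i ∉ H := fun i => (hTS (eq.symm i).2).2
  have hHE : H ⊆ M.E := hH.subset_ground
  -- the labelling of the edges
  let P : Fin (m + 1) → Fin (m + 1) → α → Prop := fun i j x =>
    (∀ a b : Fin m, i = a.succ → j = b.succ → x ∈ H ∧ x ∈ M.closure {e a, e b}) ∧
    (∀ a : Fin m, i = 0 → j = a.succ → x = e a) ∧
    (∀ a : Fin m, i = a.succ → j = 0 → x = e a)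
  have hPsymm : ∀ i j x, P i j x → P j i x := by
    rintro i j x ⟨h1, h2, h3⟩
    refine ⟨fun a b ha hb => ?_, fun a ha hb => h3 a hb ha, fun a ha hb => h2 a hb ha⟩
    obtain ⟨h4, h5⟩ := h1 b a hb ha
    exact ⟨h4, by rwa [pair_comm]⟩
  have hkey : ∀ i j : Fin (m + 1), i ≠ j → ∃ x ∈ M.E, P i j x := by
    intro i j hij
    induction i using Fin.cases with
    | zero =>
      induction j using Fin.cases with
      | zero => exact absurd rfl hij
      | succ j =>
        refine ⟨e j, heE j, ?_, ?_, ?_⟩
        · intro a b ha _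
          exact absurd ha.symm (Fin.succ_ne_zero a)
        · intro a _ ha
          rw [Fin.succ_inj.1 ha]
        · intro a ha _
          exact absurd ha.symm (Fin.succ_ne_zero a)
    | succ i =>
      induction j using Fin.cases with
      | zero =>
        refine ⟨e i, heE i, ?_, ?_, ?_⟩
        · intro a b _ hb
          exact absurd hb.symm (Fin.succ_ne_zero b)
        · intro a ha _
          exact absurd ha (Fin.succ_ne_zero i)
        · intro a ha _
          rw [Fin.succ_inj.1 ha]
      | succ j =>
        have hne : e i ≠ e j := by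
          intro h
          apply hij
          rw [heinj h]
        obtain ⟨h, hhH, hhcl⟩ := hl (e i) (heE i) (e j) (heE j) (heH i) (heH j) hne
        refine ⟨h, hHE hhH, ?_, ?_, ?_⟩
        · intro a b ha hb
          rw [← Fin.succ_inj.1 ha, ← Fin.succ_inj.1 hb]
          exact ⟨hhH, hhcl⟩
        · intro a ha _
          exact absurd ha (Fin.succ_ne_zero i)
        · intro a _ hb
          exact absurd hb (Fin.succ_ne_zero j)
  have key2 : ∀ s ∈ (⊤ : SimpleGraph (Fin (m + 1))).edgeSet,
      ∃ x, x ∈ M.E ∧ P (Quot.out s).1 (Quot.out s).2 x := by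
    intro s hs'
    have hne : (Quot.out s).1 ≠ (Quot.out s).2 := by
      rw [← out_eq s] at hs'
      simpa using hs'
    obtain ⟨x, hx, hP⟩ := hkey _ _ hne
    exact ⟨x, hx, hP⟩
  have : Nonempty α := ⟨e ⟨0, hm⟩⟩
  choose! ψ hψE hψP using key2
  have hψP' : ∀ i j, i ≠ j → P i j (ψ s(i, j)) := by
    intro i j hij
    have hsE : s(i, j) ∈ (⊤ : SimpleGraph (Fin (m + 1))).edgeSet := by simpa using hij
    have h1 := hψP _ hsE
    have h2 := out_eq s(i, j)
    rw [Sym2.eq_iff] at h2
    rcases h2 with ⟨h3, h4⟩ | ⟨h3, h4⟩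
    · rwa [h3, h4] at h1
    · rw [h3, h4] at h1
      exact hPsymm _ _ _ h1
  have hA : ∀ a : Fin m, ψ s(0, a.succ) = e a := fun a =>
    (hψP' 0 a.succ (Fin.succ_ne_zero a).symm).2.1 a rfl rfl
  have hA' : ∀ a : Fin m, ψ s(a.succ, 0) = e a := fun a => by
    rw [Sym2.eq_swap, hA]
  have hB : ∀ a b : Fin m, a ≠ b → ψ s(a.succ, b.succ) ∈ H ∧
      ψ s(a.succ, b.succ) ∈ M.closure {e a, e b} := by
    intro a b hab
    exact (hψP' a.succ b.succ (fun h => hab (Fin.succ_inj.1 h))).1 a b rfl rfl
  -- exchange
  have hex : ∀ a b : Fin m, a ≠ b → ∀ x ∈ H, x ∈ M.closure {e a, e b} →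
      e a ∈ M.closure {x, e b} := by
    intro a b hab x hx hxcl
    refine M.mem_closure_insert ?_ hxcl
    intro h
    have := eq_of_mem_closure_singleton hs (hHE hx) (heE b) h
    rw [this] at hx
    exact heH b hx
  have htri : ∀ i j k : Fin (m + 1), i ≠ j → j ≠ k → i ≠ k →
      ψ s(i, k) ∈ M.closure {ψ s(i, j), ψ s(j, k)} := by
    intro i j k hij hjk hik
    induction i using Fin.cases with
    | zero =>
      induction j using Fin.cases with
      | zero => exact absurd rfl hij
      | succ b =>
        induction k using Fin.cases with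
        | zero => exact absurd rfl hik
        | succ c =>
          have hbc : b ≠ c := fun h => hjk (by rw [h])
          obtain ⟨h1, h2⟩ := hB b c hbc
          rw [hA, hA]
          rw [pair_comm] at h2
          have h3 := hex c b hbc.symm _ h1 h2
          rwa [pair_comm] at h3
    | succ a =>
      induction j using Fin.cases with
      | zero =>
        induction k using Fin.cases with
        | zero => exact absurd rfl hjk
        | succ c =>
          have hac : a ≠ c := fun h => hik (by rw [h])
          rw [hA, hA']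
          exact (hB a c hac).2
      | succ b =>
        have hab : a ≠ b := fun h => hij (by rw [h])
        induction k using Fin.cases with
        | zero =>
          rw [hA', hA']
          obtain ⟨h1, h2⟩ := hB a b hab
          exact hex a b hab _ h1 h2
        | succ c =>
          have hbc : b ≠ c := fun h => hjk (by rw [h])
          have hac : a ≠ c := fun h => hik (by rw [h])
          obtain ⟨hx1, hx2⟩ := hB a b hab
          obtain ⟨hy1, hy2⟩ := hB b c hbc
          obtain ⟨hz1, hz2⟩ := hB a c hac
          set x := ψ s(a.succ, b.succ) with hx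
          set y := ψ s(b.succ, c.succ) with hy
          set z := ψ s(a.succ, c.succ) with hz
          by_contra hnot
          have h1 : e a ∈ M.closure {x, e b} := hex a b hab x hx1 hx2
          have h2 : e c ∈ M.closure {y, e b} := by
            rw [pair_comm] at hy2
            exact hex c b hbc.symm y hy1 hy2
          have hbig : z ∈ M.closure (insert (e b) {x, y}) := by
            have h3 : ({e a, e c} : Set α) ⊆ M.closure (insert (e b) {x, y}) := by
              rintro w (rfl | rfl)
              · refine M.closure_subset_closure ?_ h1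
                rintro w (rfl | rfl) <;> simp
              · refine M.closure_subset_closure ?_ h2
                rintro w (rfl | rfl) <;> simp
            have h4 := M.closure_subset_closure h3 hz2
            rwa [M.closure_closure] at h4
          have h5 := M.mem_closure_insert hnot hbig
          have h6 : (insert z {x, y} : Set α) ⊆ H := by
            rintro w (rfl | rfl | rfl) <;> assumption
          have h7 := M.closure_subset_closure h6 h5
          rw [hH.closure] at h7
          exact heH b h7
  set X : Set α := ψ '' (⊤ : SimpleGraph (Fin (m + 1))).edgeSet with hX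
  have hXE : X ⊆ M.E := by
    rintro _ ⟨s, hs', rfl⟩
    exact hψE s hs'
  have hXH : X \ H = range e := by
    ext x
    constructor
    · rintro ⟨⟨s, hs', rfl⟩, hxH⟩
      induction s with
      | _ i j =>
      have hij : i ≠ j := by simpa using hs'
      induction i using Fin.cases with
      | zero =>
        induction j using Fin.cases with
        | zero => exact absurd rfl hij
        | succ j => exact ⟨j, (hA j).symm⟩
      | succ i =>
        induction j using Fin.cases with
        | zero => exact ⟨i, (hA' i).symm⟩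
        | succ j => exact absurd (hB i j (fun h => hij (by rw [h]))).1 hxH
    · rintro ⟨a, rfl⟩
      refine ⟨⟨s(0, a.succ), ?_, hA a⟩, heH a⟩
      simpa using (Fin.succ_ne_zero a).symm
  have hmemX : ∀ i j, i ≠ j → ψ s(i, j) ∈ X := by
    intro i j hij
    exact ⟨s(i, j), by simpa using hij, rfl⟩
  refine ⟨X, hXE, ?_, ?_, ?_, ?_, ?_, ?_⟩
  · rw [hXH, ← image_univ, Set.ncard_image_of_injective _ heinj, Set.ncard_univ, Nat.card_fin]
  · refine normalAt_of_map (isSimple_restrict hs hXE) ψ ?_ ?_ ?_
    · intro s hs'
      exact ⟨s, hs', rfl⟩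
    · rintro x ⟨s, hs', rfl⟩
      exact ⟨s, hs', rfl⟩
    · intro i j k hij hjk hik
      have hsub : ({ψ s(i, j), ψ s(j, k)} : Set α) ⊆ X := by
        rintro x (rfl | rfl)
        · exact hmemX i j hij
        · exact hmemX j k hjk
      rw [M.restrict_closure_eq hsub hXE]
      exact ⟨htri i j k hij hjk hik, hmemX i k hik⟩
  · rw [Matroid.isFlat_iff_closure_eq, M.restrict_closure_eq inter_subset_left hXE]
    apply Subset.antisymm
    · rintro x ⟨hx, hxX⟩
      refine ⟨hxX, ?_⟩
      have := M.closure_subset_closure (inter_subset_right : X ∩ H ⊆ H) hx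
      rwa [hH.closure] at this
    · intro x hx
      exact ⟨M.mem_closure_of_mem' hx (hXE hx.1), hx.1⟩
  · rw [Matroid.restrict_ground_eq, rk_restrict M inter_subset_left, rk_restrict M Subset.rfl]
    set e0 := e ⟨0, hm⟩ with he0
    have he0X : e0 ∈ X := by
      have : e0 ∈ X \ H := by
        rw [hXH]
        exact ⟨_, rfl⟩
      exact this.1
    have h1 : e0 ∉ M.closure (X ∩ H) := by
      intro h
      have := M.closure_subset_closure (inter_subset_right : X ∩ H ⊆ H) h
      rw [hH.closure] at this
      exact heH _ this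
    rw [← rk_insert M (heE _) h1]
    apply le_antisymm
    · apply rk_mono
      rintro x (rfl | hx)
      · exact he0X
      · exact hx.1
    · rw [← rk_closure M (insert e0 (X ∩ H))]
      apply rk_mono
      intro x hx
      by_cases hxH : x ∈ H
      · exact M.mem_closure_of_mem' (Or.inr ⟨hx, hxH⟩) (hXE hx)
      · have hx' : x ∈ range e := by
          rw [← hXH]
          exact ⟨hx, hxH⟩
        obtain ⟨a, rfl⟩ := hx'
        by_cases ha : a = ⟨0, hm⟩
        · rw [ha]
          exact M.mem_closure_of_mem' (Or.inl rfl) (heE _)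
        · obtain ⟨h2, h3⟩ := hB a ⟨0, hm⟩ ha
          have h4 := hex a ⟨0, hm⟩ ha _ h2 h3
          refine M.closure_subset_closure ?_ h4
          rintro w (rfl | rfl)
          · exact Or.inr ⟨hmemX _ _ (fun h => ha (Fin.succ_inj.1 h)), h2⟩
          · exact Or.inl rfl
  · intro p hp q hq hpH hqH hpq
    rw [Matroid.restrict_ground_eq] at hp hq
    have hp' : p ∈ range e := by
      rw [← hXH]
      exact ⟨hp, fun h => hpH ⟨hp, h⟩⟩
    have hq' : q ∈ range e := by
      rw [← hXH]
      exact ⟨hq, fun h => hqH ⟨hq, h⟩⟩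
    obtain ⟨a, rfl⟩ := hp'
    obtain ⟨b, rfl⟩ := hq'
    have hab : a ≠ b := fun h => hpq (by rw [h])
    obtain ⟨h2, h3⟩ := hB a b hab
    have h4 : ψ s(a.succ, b.succ) ∈ X := hmemX _ _ (fun h => hab (Fin.succ_inj.1 h))
    refine ⟨ψ s(a.succ, b.succ), ⟨h4, h2⟩, ?_⟩
    have hsub : ({e a, e b} : Set α) ⊆ X := by
      rintro x (rfl | rfl) <;> assumption
    rw [M.restrict_closure_eq hsub hXE]
    exact ⟨h3, h4⟩
  · have h1 : ((⊤ : SimpleGraph (Fin (m + 1))).edgeSet).ncard = (m + 1).choose 2 := by
      rw [← SimpleGraph.coe_edgeFinset, Set.ncard_coe_finset,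
        SimpleGraph.card_edgeFinset_top_eq_card_choose_two, Fintype.card_fin]
    rw [← h1]
    exact Set.ncard_image_le (Set.toFinite _)

open Polynomial in
/-- The restriction found above has `m` as a zero of its characteristic polynomial. -/
theorem exists_restriction_root (M : Matroid α) [M.Finite] (hs : IsSimple M) {H : Set α}
    (hH : M.IsFlat H) (hl : MeetsLines M H) {m : ℕ} (hm : 1 ≤ m)
    (hcard : m ≤ (M.E \ H).ncard) :
    ∃ X ⊆ M.E, (X \ H).ncard = m ∧ NormalAt m (M.restrict X) ∧
      (charPoly (M.restrict X)).eval (m : ℤ) = 0 ∧ X.ncard ≤ (m + 1).choose 2 := by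
  obtain ⟨X, hXE, h1, h2, h3, h4, h5, h6⟩ := exists_restriction M hs hH hl hm hcard
  refine ⟨X, hXE, h1, h2, ?_, h6⟩
  have hfin : (M.restrict X).Finite := ⟨M.ground_finite.subset hXE⟩
  have h7 := charPoly_factor (M.restrict X) h3 h4 h5
  have h8 : (M.restrict X).E \ (X ∩ H) = X \ H := by
    rw [Matroid.restrict_ground_eq]
    ext x
    simp only [Set.mem_sdiff, Set.mem_inter_iff]
    tauto
  rw [h8, h1] at h7
  rw [h7]
  simp

/-- A modular flat `G` of a simple matroid meets every line that is spanned by two elements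
outside `G` of a flat `G'` in which `G` has corank one. -/
theorem meetsLines_of_modular (M : Matroid α) [M.Finite] (hs : IsSimple M) {G G' : Set α}
    (hG : IsModularFlat M G) (hG' : M.IsFlat G') (hsub : G ⊆ G')
    (hr : rk M G + 1 = rk M G') : MeetsLines (M.restrict G') G := by
  intro e he f hf heG hfG hef
  rw [Matroid.restrict_ground_eq] at he hf
  have hGE := hG'.subset_ground
  have hpair : ({e, f} : Set α) ⊆ G' := by
    rintro x (rfl | rfl) <;> assumption
  have hLG' : M.closure {e, f} ⊆ G' := by
    have := M.closure_subset_closure hpair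
    rwa [hG'.closure] at this
  have hrL : rk M (M.closure {e, f}) = 2 := by
    rw [rk, M.eRk_closure_eq, (hs e (hGE he) f (hGE hf)).eRk_eq_encard,
      Set.encard_pair hef]
    rfl
  have hmod := hG.2 (M.closure {e, f}) (M.isFlat_closure _)
  have h1 : rk M (G ∪ M.closure {e, f}) ≤ rk M G' := rk_mono M (union_subset hsub hLG')
  have h2 : rk M (G ∩ M.closure {e, f}) ≠ 0 := by omega
  have hne : (G ∩ M.closure {e, f}).Nonempty := by
    by_contra hcon
    rw [Set.not_nonempty_iff_eq_empty] at hcon
    rw [hcon, rk] at h2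
    simp at h2
  obtain ⟨x, hx1, hx2⟩ := hne
  refine ⟨x, hx1, ?_⟩
  rw [M.restrict_closure_eq hpair hGE]
  exact ⟨hx2, hLG' hx2⟩

theorem isFlat_restrict {G G' : Set α} (hG : M.IsFlat G) (hG' : G' ⊆ M.E) (hsub : G ⊆ G') :
    (M.restrict G').IsFlat G := by
  rw [Matroid.isFlat_iff_closure_eq, M.restrict_closure_eq hsub hG', hG.closure,
    inter_eq_left.2 hsub]

end Pool.Agent.Helper335.ModHyp
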