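import Pool.Agent.Helper335.ModHyp.Factor

/-! # Simplifications of quotients of complete graphs, without representations -/

namespace Pool.Agent.Helper335.ModHyp

open Set Pool.Agent.Helper236

variable {α : Type*} {M : Matroid α}

/-- `M` is isomorphic to the simplification of a quotient of the cycle matroid of the complete
graph on `m + 1` vertices. (For `m = q ^ k` this is normality in the sense of Whittle.) -/
def NormalAt (m : ℕ) (M : Matroid α) : Prop :=
  ∃ K N S : Matroid (Sym2 (Fin (m + 1))), IsCompleteGraphMatroid (m + 1) K ∧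
    IsQuotient N K ∧ IsSimplification S N ∧ Iso M S

theorem normalAt_pow (q k : ℕ) (M : Matroid α) : NormalAt (q ^ k) M ↔ IsNormal q k M := Iff.rfl

/-- A set of edges closed under completing triangles is a flat of the complete graph. -/
theorem cyc_isFlat {F : Type*} [Field F] {n : ℕ} {G : Set (Sym2 (Fin n))}
    (hG : G ⊆ (⊤ : SimpleGraph (Fin n)).edgeSet)
    (htri : ∀ i j k, i ≠ j → j ≠ k → i ≠ k → s(i, j) ∈ G → s(j, k) ∈ G → s(i, k) ∈ G) :
    (cyc F n).IsFlat G := by
  classical
  rw [Matroid.isFlat_iff_closure_eq]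
  apply Subset.antisymm _ ((cyc F n).subset_closure G hG)
  intro e he
  have heE : e ∈ (⊤ : SimpleGraph (Fin n)).edgeSet := (cyc F n).closure_subset_ground G he
  have h1 := ((linMatroid_rep (F := F) (diffVec (std F n))
    (⊤ : SimpleGraph (Fin n)).edgeSet (Set.toFinite _)).mem_closure_iff hG heE).1 he
  induction e with
  | _ a b =>
  have hab : a ≠ b := by simpa using heE
  by_contra hnot
  rw [diffVec_mem_iff] at h1
  let R : Fin n → Prop := fun i => a = i ∨ s(a, i) ∈ G
  let φ : (Fin n → F) →ₗ[F] F :=
    { toFun := fun x => ∑ i, if R i then x i else 0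
      map_add' := by
        intro x y
        rw [← Finset.sum_add_distrib]
        refine Finset.sum_congr rfl fun i _ => ?_
        split_ifs <;> simp
      map_smul' := by
        intro c x
        simp only [Pi.smul_apply, smul_eq_mul, RingHom.id_apply, Finset.mul_sum]
        refine Finset.sum_congr rfl fun i _ => ?_
        split_ifs <;> simp }
  have hφ : ∀ i, φ (std F n i) = if R i then 1 else 0 := by
    intro i
    simp only [φ, std, LinearMap.coe_mk, AddHom.coe_mk]
    rw [Finset.sum_eq_single i]
    · simp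
    · intro j _ hji
      simp [hji]
    · simp
  have hstep : ∀ c d, c ≠ d → s(c, d) ∈ G → R c → R d := by
    intro c d hcd hmem hc
    rcases hc with rfl | hc
    · exact Or.inr hmem
    · by_cases had : a = d
      · exact Or.inl had
      · have hac : a ≠ c := by
          have := hG hc
          simpa using this
        exact Or.inr (htri a c d hac hcd had hc hmem)
  have hle : Submodule.span F (diffVec (std F n) '' G) ≤ LinearMap.ker φ := by
    rw [Submodule.span_le]
    rintro _ ⟨e', he', rfl⟩
    induction e' with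
    | _ c d =>
    have hcd : c ≠ d := by
      have := hG he'
      simpa using this
    rw [SetLike.mem_coe, diffVec_mem_iff, LinearMap.mem_ker, map_sub, hφ, hφ, sub_eq_zero]
    have : R c ↔ R d :=
      ⟨hstep c d hcd he', hstep d c hcd.symm (by rwa [Sym2.eq_swap])⟩
    simp [this]
  have h0 := hle h1
  have hRa : R a := Or.inl rfl
  have hRb : ¬ R b := by
    rintro (h | h)
    · exact hab h
    · exact hnot h
  rw [LinearMap.mem_ker, map_sub, hφ, hφ, if_pos hRa, if_neg hRb] at h0
  simp at h0

theorem comapOn_closure {β : Type*} (N : Matroid α) (E : Set β) (f : β → α)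
    (hf : ∀ e ∈ E, f e ∈ N.E) {X : Set β} (hX : X ⊆ E) :
    (N.comapOn E f).closure X = f ⁻¹' (N.closure (f '' X)) ∩ E := by
  have hE : E ⊆ (N.comap f).E := fun e he => hf e he
  have h1 : N.comapOn E f = (N.comap f).restrict E := rfl
  rw [h1, Matroid.restrict_closure_eq _ hX hE, Matroid.comap_closure_eq]

/-- Criterion for being the simplification of a quotient of a complete graph: the elements can be
labelled by the edges (with repetitions allowed) so that triangles have rank at most two. -/
theorem normalAt_of_map {m : ℕ} (hs : IsSimple M) (ψ : Sym2 (Fin (m + 1)) → α)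
    (hψ : ∀ s ∈ (⊤ : SimpleGraph (Fin (m + 1))).edgeSet, ψ s ∈ M.E)
    (hsurj : ∀ e ∈ M.E, ∃ s ∈ (⊤ : SimpleGraph (Fin (m + 1))).edgeSet, ψ s = e)
    (htri : ∀ i j k, i ≠ j → j ≠ k → i ≠ k →
      ψ s(i, k) ∈ M.closure {ψ s(i, j), ψ s(j, k)}) : NormalAt m M := by
  classical
  set E := (⊤ : SimpleGraph (Fin (m + 1))).edgeSet with hE
  set Q : Matroid (Sym2 (Fin (m + 1))) := M.comapOn E ψ with hQ
  have hQind : ∀ I, Q.Indep I ↔ M.Indep (ψ '' I) ∧ InjOn ψ I ∧ I ⊆ E := by
    intro I
    rw [hQ, Matroid.comapOn_indep_iff]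
  choose! σ hσE hσ using hsurj
  have hσinj : InjOn σ M.E := by
    intro x hx y hy hxy
    rw [← hσ x hx, ← hσ y hy, hxy]
  refine ⟨cyc ℚ (m + 1), Q, Q.restrict (σ '' M.E), cyc_isCompleteGraphMatroid ℚ (m + 1),
    ⟨rfl, ?_⟩, ⟨σ '' M.E, ?_, ?_, rfl⟩, ?_⟩
  · -- flats of the quotient are flats of the complete graph
    intro G hG
    have hGE : G ⊆ E := hG.subset_ground
    refine cyc_isFlat hGE ?_
    intro i j k hij hjk hik h1 h2
    have h3 : s(i, k) ∈ Q.closure G := by
      rw [hQ, comapOn_closure M E ψ hψ hGE]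
      refine ⟨?_, by simpa [hE] using hik⟩
      refine M.closure_subset_closure ?_ (htri i j k hij hjk hik)
      rintro x (rfl | rfl)
      · exact mem_image_of_mem _ h1
      · exact mem_image_of_mem _ h2
    rwa [hG.closure] at h3
  · rintro _ ⟨e, he, rfl⟩
    rw [← Matroid.indep_singleton, hQind, image_singleton, hσ e he]
    refine ⟨?_, injOn_singleton _ _, singleton_subset_iff.2 (hσE e he)⟩
    have := hs e he e he
    simpa using this
  · intro f hf
    have hfE : f ∈ E := hf.mem_ground
    have hψf := hψ f hfE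
    refine ⟨σ (ψ f), ⟨⟨ψ f, hψf, rfl⟩, ?_⟩, ?_⟩
    · by_cases heq : σ (ψ f) = f
      · exact Or.inl heq
      · right
        rw [hQind]
        rintro ⟨-, hinj, -⟩
        exact heq (hinj (by simp) (by simp) (hσ _ hψf))
    · rintro _ ⟨⟨x, hx, rfl⟩, hy⟩
      have hxf : x = ψ f := by
        rcases hy with hy | hy
        · rw [← hy, hσ x hx]
        · by_contra hne
          apply hy
          rw [hQind]
          refine ⟨?_, ?_, ?_⟩
          · rw [image_pair, hσ x hx]
            exact hs x hx _ hψf
          · intro a ha b hb hab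
            rcases ha with rfl | rfl <;> rcases hb with rfl | rfl
            · rfl
            · rw [hσ x hx] at hab
              exact absurd hab hne
            · rw [hσ x hx] at hab
              exact absurd hab.symm hne
            · rfl
          · rintro a (rfl | rfl)
            · exact hσE x hx
            · exact hfE
      rw [hxf]
  · let e : M.E ≃ (Q.restrict (σ '' M.E)).E := Equiv.Set.imageOfInjOn σ M.E hσinj
    refine ⟨e, fun I => ?_⟩
    have himg : ((↑) '' (e '' I) : Set (Sym2 _)) = σ '' ((↑) '' I : Set α) := by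
      ext y
      constructor
      · rintro ⟨_, ⟨x, hx, rfl⟩, rfl⟩
        exact ⟨x, ⟨x, hx, rfl⟩, rfl⟩
      · rintro ⟨_, ⟨x, hx, rfl⟩, rfl⟩
        exact ⟨e x, ⟨x, hx, rfl⟩, rfl⟩
    have hIE : ((↑) '' I : Set α) ⊆ M.E := by
      rintro _ ⟨x, _, rfl⟩
      exact x.2
    have hsub : σ '' ((↑) '' I : Set α) ⊆ E := by
      rintro _ ⟨x, hx, rfl⟩
      exact hσE x (hIE hx)
    have hback : ψ '' (σ '' ((↑) '' I : Set α)) = ((↑) '' I : Set α) := by
      rw [← image_comp]
      conv_rhs => rw [← image_id ((↑) '' I : Set α)]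
      apply image_congr
      intro x hx
      exact hσ x (hIE hx)
    rw [himg, Matroid.restrict_indep_iff, and_iff_left (image_mono hIE), hQind, hback,
      and_iff_left]
    refine ⟨?_, hsub⟩
    rintro _ ⟨x, hx, rfl⟩ _ ⟨y, hy, rfl⟩ hxy
    rw [hσ x (hIE hx), hσ y (hIE hy)] at hxy
    rw [hxy]

end Pool.Agent.Helper335.ModHyp
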